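import Mathlib

namespace Pool.Agent.Results.MP_b20271_lc.No

def Tuned {W : Type} (R : W → W → Prop) (A : Set (Set W)) : Prop :=
  ∀ U ∈ A, ∀ V ∈ A, (∃ u ∈ U, ∃ v ∈ V, R u v) → ∀ u ∈ U, ∃ v ∈ V, R u v

def Refines {W : Type} (B A : Set (Set W)) : Prop := ∀ U ∈ A, ∃ S ⊆ B, U = ⋃₀ S

def Tunable {W : Type} (R : W → W → Prop) : Prop :=
  ∀ A : Set (Set W), Setoid.IsPartition A → A.Finite →
    ∃ B : Set (Set W), Setoid.IsPartition B ∧ B.Finite ∧ Refines B A ∧ Tuned R B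

theorem of_fun {W : Type} (R : W → W → Prop)
    (h : ∀ (κ : Type) [Finite κ] (c : W → κ), ∃ (κ' : Type) (_ : Finite κ') (c' : W → κ'),
      (∀ x y, c' x = c' y → c x = c y) ∧
      ∀ u u' v, c' u = c' u' → R u v → ∃ v', c' v' = c' v ∧ R u' v') : Tunable R := by
  intro A hA hf
  have := hf.to_subtype
  choose c hc using fun x => (hA.2 x).exists
  obtain ⟨κ', _, c', h1, h2⟩ := h A fun x => ⟨c x, (hc x).1⟩
  refine ⟨(Setoid.ker c').classes, Setoid.isPartition_classes _,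
    Setoid.finite_classes_ker c', ?_, ?_⟩
  · intro U hU
    refine ⟨{V | V ∈ (Setoid.ker c').classes ∧ V ⊆ U}, fun V hV => hV.1, ?_⟩
    refine Set.Subset.antisymm (fun x hx => ?_) (Set.sUnion_subset fun V hV => hV.2)
    refine ⟨_, ⟨Setoid.mem_classes _ x, fun y hy => ?_⟩, (Setoid.ker c').refl' x⟩
    have e : c y = c x := congrArg Subtype.val (h1 y x hy)
    rw [← (hA.2 x).unique (hc x) ⟨hU, hx⟩, ← e]
    exact (hc y).2
  · rintro _ ⟨a, rfl⟩ _ ⟨b, rfl⟩ ⟨u, hu, v, hv, huv⟩ u' hu'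
    obtain ⟨v', e, h⟩ := h2 u u' v (Eq.trans hu (Eq.symm hu')) huv
    exact ⟨v', e.trans hv, h⟩

theorem tun_nat : Tunable (fun a b : ℕ => a ≤ b) := by
  classical
  refine of_fun _ fun κ _ c => ?_
  have : (⋃ k : κ, {n | c n = k ∧ {x | c x = k}.Finite}).Finite := by
    refine Set.finite_iUnion fun k => ?_
    by_cases h : {x | c x = k}.Finite
    · exact h.subset fun x hx => hx.1
    · simp [h]
  obtain ⟨N, hN⟩ := this.bddAbove
  refine ⟨κ × Fin (N + 2), inferInstance, fun n => (c n, ⟨min n (N + 1), by omega⟩),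
    fun x y h => congrArg Prod.fst h, fun u u' v h huv => ?_⟩
  simp only [Prod.mk.injEq, Fin.mk.injEq] at h ⊢
  by_cases hv : v ≤ N
  · exact ⟨v, ⟨rfl, rfl⟩, by omega⟩
  · have h1 : {x | c x = c v}.Infinite := fun hf => hv (hN (Set.mem_iUnion.2 ⟨c v, rfl, hf⟩))
    obtain ⟨v', h2, h3⟩ := h1.exists_gt (u' + N)
    exact ⟨v', ⟨h2, by omega⟩, by omega⟩

theorem tun_fan : Tunable (fun a b : Option ℕ => a = none ∨ a = b) := by
  refine of_fun _ fun κ _ c => ⟨κ × Bool, inferInstance, fun n => (c n, n.isSome),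
    fun x y h => congrArg Prod.fst h, fun u u' v h huv => ?_⟩
  cases u with
  | none =>
    refine ⟨v, rfl, Or.inl ?_⟩
    cases u' <;> simp_all
  | some a =>
    obtain rfl : some a = v := by simpa using huv
    exact ⟨u', h.symm, Or.inr rfl⟩

theorem not_tun : ¬ Tunable (fun x y : ℕ × Option ℕ => x.1 ≤ y.1 ∧ (x.2 = none ∨ x.2 = y.2)) := by
  intro h
  let c : ℕ × Option ℕ → Option ℕ := fun x => x.2.map fun n => min x.1 n % 2
  have hc : ((Setoid.ker c).classes).Finite := by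
    let c' : ℕ × Option ℕ → Option (Fin 2) := fun x =>
      x.2.map fun n => ⟨min x.1 n % 2, Nat.mod_lt _ (by norm_num)⟩
    have : Setoid.ker c = Setoid.ker c' := by
      ext ⟨a, _ | b⟩ ⟨a', _ | b'⟩ <;> simp [Setoid.ker_def, c, c']
    rw [this]
    exact Setoid.finite_classes_ker c'
  obtain ⟨B, hB, hf, hr, ht⟩ := h _ (Setoid.isPartition_classes (Setoid.ker c)) hc
  choose p hp using fun x => (hB.2 x).exists
  have h1 : ∀ x y, p x = p y → c x = c y := by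
    intro x y e
    obtain ⟨S, hS, h2⟩ := hr _ (Setoid.mem_classes (Setoid.ker c) x)
    obtain ⟨V, hV, hx⟩ : x ∈ ⋃₀ S := h2 ▸ (Setoid.ker c).refl' x
    have h3 : y ∈ ⋃₀ S := ⟨V, hV, by
      rw [← (hB.2 x).unique (hp x) ⟨hS hV, hx⟩, e]; exact (hp y).2⟩
    rw [← h2] at h3
    exact Eq.symm h3
  have h2 : ∀ d a n a' n', a + d ≤ n → p (a, some n) = p (a', some n') →
      (a' + d ≤ n' ∨ d = 0) := by
    intro d
    induction d with
    | zero => exact fun _ _ _ _ _ _ => Or.inr rfl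
    | succ d ih =>
      intro a n a' n' hle e
      obtain ⟨⟨b, m⟩, hv, hb, hm⟩ := ht _ (hp (a, some n)).1 _ (hp (a + 1, some n)).1
        ⟨_, (hp _).2, _, (hp _).2, Nat.le_succ a, Or.inr rfl⟩ (a', some n') (e ▸ (hp _).2)
      obtain rfl : some n' = m := by simpa using hm
      have e' : p (a + 1, some n) = p (b, some n') :=
        (hB.2 _).unique ⟨(hp _).1, hv⟩ (hp _)
      have k1 := h1 _ _ e
      have k2 := h1 _ _ e'
      have k3 := ih (a + 1) n b n' (by omega) e'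
      simp only [c, Option.map_some, Option.some.injEq] at k1 k2 hb
      omega
  have := hf.to_subtype
  obtain ⟨n, n', hne, e⟩ := Finite.exists_ne_map_eq_of_infinite
    fun n : ℕ => (⟨p (0, some (n + 1)), (hp _).1⟩ : B)
  have e1 := congrArg Subtype.val e
  have k1 := h2 (n + 1) 0 (n + 1) 0 (n' + 1) (by omega) e1
  have k2 := h2 (n' + 1) 0 (n' + 1) 0 (n + 1) (by omega) e1.symm
  omega

theorem result : ∃ (W₁ W₂ : Type) (R₁ : W₁ → W₁ → Prop) (R₂ : W₂ → W₂ → Prop),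
    IsPartialOrder W₁ R₁ ∧ IsPartialOrder W₂ R₂ ∧ (∃ r, ∀ x, R₁ r x) ∧ (∃ r, ∀ x, R₂ r x) ∧
    Tunable R₁ ∧ Tunable R₂ ∧ ¬ Tunable (fun x y : W₁ × W₂ => R₁ x.1 y.1 ∧ R₂ x.2 y.2) := by
  refine ⟨ℕ, Option ℕ, _, _, inferInstanceAs (IsPartialOrder ℕ (· ≤ ·)), ?_, ⟨0, Nat.zero_le⟩,
    ⟨none, fun _ => Or.inl rfl⟩, tun_nat, tun_fan, not_tun⟩
  exact { refl := fun _ => Or.inr rfl
          trans := by grind
          antisymm := by grind }

end Pool.Agent.Results.MP_b20271_lc.No
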